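import Pool.Agent.W_MP_868bb7_h79.Tr
import Pool.Agent.W_MP_868bb7_ag.SymId
import Pool.Agent.W_MP_868bb7_ag.Newton

set_option autoImplicit false

/-!
# Smash: smash-nilpotent morphisms

`g` is smash-nilpotent if some tensor power `g^{⊗ k}` vanishes.
-/

namespace Pool.Agent.W_MP_868bb7_h79

open CategoryTheory MonoidalCategory
open Pool.Agent.W_MP_868bb7_ag

universe v v' u u' w

section Mon

variable {C : Type u} [Category.{v} C] [MonoidalCategory C]

theorem J_nat_aux {X Y P P' M M' Q Q' : C} (f : X ⟶ Y) (p : P ⟶ P') (m : M ⟶ M') (q : Q ⟶ Q')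
    (j : P ⊗ M ⟶ Q) (j' : P' ⊗ M' ⟶ Q') (h : (p ⊗ₘ m) ≫ j' = j ≫ q) :
    ((f ⊗ₘ p) ⊗ₘ m) ≫ (α_ Y P' M').hom ≫ Y ◁ j' = ((α_ X P M).hom ≫ X ◁ j) ≫ (f ⊗ₘ q) := by
  rw [associator_naturality_assoc, Category.assoc, ← id_tensorHom, ← id_tensorHom,
    tensorHom_comp_tensorHom, tensorHom_comp_tensorHom, h, Category.comp_id, Category.id_comp]

theorem J_nat {X Y : C} (f : X ⟶ Y) (a m : ℕ) :
    (powMap f a ⊗ₘ powMap f m) ≫ (J Y a m).hom = (J X a m).hom ≫ powMap f (m + a) := by
  induction a with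
  | zero =>
    change (𝟙 (𝟙_ C) ⊗ₘ powMap f m) ≫ (λ_ (pow Y m)).hom = (λ_ (pow X m)).hom ≫ powMap f m
    rw [id_tensorHom, leftUnitor_naturality]
  | succ a ih =>
    exact J_nat_aux f (powMap f a) (powMap f m) (powMap f (m + a)) (J X a m).hom (J Y a m).hom ih

/-- the `k`-th tensor power of the `n`-th tensor power -/
def QQ (X : C) (n : ℕ) : (k : ℕ) → (pow (pow X n) k ≅ pow X (n * k))
  | 0 => Iso.refl _
  | k + 1 => whiskerLeftIso (pow X n) (QQ X n k) ≪≫ J X n (n * k)

theorem QQ_nat {X Y : C} (f : X ⟶ Y) (n k : ℕ) :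
    powMap (powMap f n) k ≫ (QQ Y n k).hom = (QQ X n k).hom ≫ powMap f (n * k) := by
  induction k with
  | zero => exact (Category.comp_id _).trans (Category.id_comp _).symm
  | succ k ih =>
    change (powMap f n ⊗ₘ powMap (powMap f n) k) ≫ (pow Y n ◁ (QQ Y n k).hom ≫
      (J Y n (n * k)).hom) = (pow X n ◁ (QQ X n k).hom ≫ (J X n (n * k)).hom) ≫
      powMap f (n * k + n)
    have h1 := J_nat f n (n * k)
    have h2 : (powMap f n ⊗ₘ powMap (powMap f n) k) ≫ pow Y n ◁ (QQ Y n k).hom =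
        pow X n ◁ (QQ X n k).hom ≫ (powMap f n ⊗ₘ powMap f (n * k)) := by
      rw [← id_tensorHom, ← id_tensorHom, tensorHom_comp_tensorHom, tensorHom_comp_tensorHom,
        ih, Category.comp_id, Category.id_comp]
    rw [← Category.assoc, h2, Category.assoc, h1, Category.assoc]

end Mon

variable (K : Type w) [Field K] [CharZero K] {C : Type u} [Category.{v} C] [MonoidalCategory C]
  [Preadditive C] [Linear K C] [MonoidalPreadditive C] [SymmetricCategory C]

include K in
theorem EL_E (b : Bool) (X : C) (m a : ℕ) :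
    EL b X m a ≫ E b X (m + a) = (a.factorial : ℤ) • E b X (m + a) := by
  induction a with
  | zero =>
    change 𝟙 _ ≫ E b X m = _
    rw [Category.id_comp, Nat.factorial_zero, Nat.cast_one, one_smul]
    rfl
  | succ a ih =>
    have h1 : symid_wl X (m + a) (EL b X m a) ≫ E b X (m + a + 1) =
        (a.factorial : ℤ) • E b X (m + a + 1) := by
      apply symid_cancel K (m + a)
      rw [← Preadditive.comp_zsmul, ← symid_whisker_E, ← Category.assoc, symid_wl_comp, ih,
        symid_wl_zsmul, Preadditive.zsmul_comp, symid_whisker_E, smul_smul, smul_smul, mul_comm]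
    change EL b X m (a + 1) ≫ E b X (m + a + 1) = _ • E b X (m + a + 1)
    rw [symid_EL_succ, Preadditive.sum_comp]
    have h2 : ∀ p : Fin (a + 1), ((cs b) ^ (p : ℕ) •
        (symid_wl X (m + a) (EL b X m a) ≫ mv X (m + a) p)) ≫ E b X (m + a + 1) =
        (a.factorial : ℤ) • E b X (m + a + 1) := by
      intro p
      have hp : (p : ℕ) < m + a + 1 := by
        have := p.2
        omega
      have h3 : mv X (m + a) p ≫ E b X (m + a + 1) = (cs b) ^ (p : ℕ) • E b X (m + a + 1) :=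
        mv_E b X (m + a) ⟨p, hp⟩
      rw [Preadditive.zsmul_comp, Category.assoc, h3, Preadditive.comp_zsmul, h1, smul_smul,
        smul_smul, symid_cs, one_mul]
    rw [Finset.sum_congr rfl fun p _ => h2 p, Finset.sum_const, Finset.card_univ,
      Fintype.card_fin, ← natCast_zsmul, smul_smul, Nat.factorial_succ, Nat.cast_mul]

include K in
theorem smash_step {A M M' R : C} (r : A ⊗ M ⟶ R) (eA : A ⟶ A) (eM : M ⟶ M)
    (p : M' ⟶ M') (q : M' ⟶ M) (n m : ℕ) (c : ℤ)
    (h1 : (A ◁ eM) ≫ r = (m.factorial : ℤ) • r) (h2 : (eA ▷ M) ≫ r = (n.factorial : ℤ) • r)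
    (h3 : p ≫ q ≫ eM = c • (q ≫ eM)) :
    (eA ⊗ₘ p) ≫ (A ◁ q) ≫ r = ((n.factorial : ℤ) * c) • ((A ◁ q) ≫ r) := by
  have h4 : (A ◁ (p ≫ q)) ≫ r = c • ((A ◁ q) ≫ r) := by
    apply symid_cancel K m
    rw [← Preadditive.comp_zsmul, ← h1, ← Category.assoc, ← MonoidalCategory.whiskerLeft_comp,
      Category.assoc, h3]
    have h5 : A ◁ (c • (q ≫ eM)) = c • (A ◁ (q ≫ eM)) :=
      (tensorLeft A).map_zsmul
    rw [h5, Preadditive.zsmul_comp, MonoidalCategory.whiskerLeft_comp, Category.assoc, h1,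
      Preadditive.comp_zsmul, smul_smul, smul_smul, mul_comm]
  calc (eA ⊗ₘ p) ≫ (A ◁ q) ≫ r = (A ◁ p ≫ A ◁ q) ≫ (eA ▷ M) ≫ r := by
        rw [MonoidalCategory.tensorHom_def', Category.assoc, ← whisker_exchange_assoc,
          Category.assoc]
    _ = _ := by
        rw [h2, Preadditive.comp_zsmul, ← MonoidalCategory.whiskerLeft_comp, h4, smul_smul]

variable [MonoidalLinear K C]

include K in
theorem powMap_E_QQ (b : Bool) (X : C) (n k : ℕ) : ∃ c : ℤ, c ≠ 0 ∧
    powMap (E b X n) k ≫ (QQ X n k).hom ≫ E b X (n * k) =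
      c • ((QQ X n k).hom ≫ E b X (n * k)) := by
  induction k with
  | zero =>
    refine ⟨1, one_ne_zero, ?_⟩
    rw [one_smul]
    exact Category.id_comp _
  | succ k ih =>
    obtain ⟨c, hc, ih⟩ := ih
    refine ⟨(n.factorial : ℤ) * c, mul_ne_zero (by exact_mod_cast n.factorial_ne_zero) hc, ?_⟩
    have h1 : (pow X n ◁ E b X (n * k)) ≫ ((J X n (n * k)).hom ≫ E b X (n * k + n)) =
        ((n * k).factorial : ℤ) • ((J X n (n * k)).hom ≫ E b X (n * k + n)) := by
      rw [← Category.assoc, wT_J, Category.assoc, wT_E K, Preadditive.comp_zsmul]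
    have h2 : (E b X n ▷ pow X (n * k)) ≫ ((J X n (n * k)).hom ≫ E b X (n * k + n)) =
        (n.factorial : ℤ) • ((J X n (n * k)).hom ≫ E b X (n * k + n)) := by
      rw [← Category.assoc, E_J, Category.assoc, EL_E K, Preadditive.comp_zsmul]
    have h3 := smash_step K ((J X n (n * k)).hom ≫ E b X (n * k + n)) (E b X n)
      (E b X (n * k)) (powMap (E b X n) k) (QQ X n k).hom n (n * k) c h1 h2 ih
    change (E b X n ⊗ₘ powMap (E b X n) k) ≫ (pow X n ◁ (QQ X n k).hom ≫ (J X n (n * k)).hom) ≫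
      E b X (n * k + n) = _ • ((pow X n ◁ (QQ X n k).hom ≫ (J X n (n * k)).hom) ≫
      E b X (n * k + n))
    simp only [Category.assoc]
    exact h3

include K in
/-- a smash-nilpotent `f^{⊗ n} ≫ E` forces `f` to be of the same type -/
theorem Fd_of_smash (b : Bool) {X : C} (f : X ⟶ X) (n k : ℕ) (hn : 1 ≤ n) (hk : 1 ≤ k)
    (h : powMap (powMap f n ≫ E b X n) k = 0) : Fd b f := by
  refine ⟨n * k, Nat.one_le_iff_ne_zero.2 (Nat.mul_ne_zero (by omega) (by omega)), ?_⟩
  obtain ⟨c, hc, h1⟩ := powMap_E_QQ K b X n k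
  have h2 : powMap (powMap f n) k ≫ powMap (E b X n) k ≫ (QQ X n k).hom ≫ E b X (n * k) = 0 := by
    rw [← Category.assoc, ← powMap_comp, h, Limits.zero_comp]
  rw [h1, Preadditive.comp_zsmul, ← Category.assoc, QQ_nat, Category.assoc] at h2
  have h3 : (QQ X n k).hom ≫ powMap f (n * k) ≫ E b X (n * k) = 0 := by
    have h4 : (c : K) • ((QQ X n k).hom ≫ powMap f (n * k) ≫ E b X (n * k)) = 0 := by
      rw [Int.cast_smul_eq_zsmul]
      exact h2
    have hc' : (c : K) ≠ 0 := by exact_mod_cast hc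
    exact (smul_eq_zero_iff_right hc').1 h4
  rw [← cancel_epi (QQ X n k).hom, h3, Limits.comp_zero]

variable [RightRigidCategory C] [UnitK K C]

theorem tr_powMap {X : C} (f : X ⟶ X) (n : ℕ) : tr K (powMap f n) = tr K f ^ n := by
  induction n with
  | zero =>
    rw [pow_zero]
    exact tr_unit K
  | succ n ih =>
    change tr K (f ⊗ₘ powMap f n) = _
    rw [tr_tensor, ih, pow_succ, mul_comm]

include K in
/-- a smash-nilpotent endomorphism is nilpotent -/
theorem nilp_of_smash {X : C} (f : X ⟶ X) (n : ℕ) (hn : 1 ≤ n) (h : powMap f n = 0) :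
    it f n = 0 := by
  apply nilp K true f n hn (by rw [h, Limits.zero_comp])
  intro j hj
  obtain ⟨j, rfl⟩ : ∃ i, j = i + 1 := ⟨j - 1, by omega⟩
  have h1 : powMap (it f (j + 1)) n = 0 := by
    change powMap (f ≫ it f j) n = 0
    rw [powMap_comp, h, Limits.zero_comp]
  have h2 := tr_powMap K (it f (j + 1)) n
  rw [h1, tr_zero] at h2
  exact pow_eq_zero_iff (by omega) |>.1 h2.symm

section Functor

variable {D : Type u'} [Category.{v'} D] [MonoidalCategory D] [SymmetricCategory D]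
  [Preadditive D] (F : C ⥤ D) [F.Braided] [F.Additive]

/-- every morphism killed by `F` is smash-nilpotent -/
def KerSmash {C : Type u} [Category.{v} C] [MonoidalCategory C] [Preadditive C]
    {D : Type u'} [Category.{v'} D] [Preadditive D] (F : C ⥤ D) : Prop :=
  ∀ {X Y : C} (f : X ⟶ Y), F.map f = 0 → ∃ n : ℕ, powMap f n = 0

omit [CharZero K] [MonoidalLinear K C] [RightRigidCategory C] [UnitK K C] [Linear K C]
  [SymmetricCategory C] in
theorem smash_pos {X Y : C} (f : X ⟶ Y) (n : ℕ) (h : powMap f n = 0) : powMap f (n + 1) = 0 := by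
  change f ⊗ₘ powMap f n = 0
  rw [h, MonoidalPreadditive.tensor_zero]

include K in
omit [RightRigidCategory C] [UnitK K C] in
theorem Fd_of_ker (hF : KerSmash F) (b : Bool) {X : C} (f : X ⟶ X) (h : Fd b (F.map f)) :
    Fd b f := by
  obtain ⟨n, hn, h⟩ := h
  rw [← tP_E, tP_map, ← F.map_comp] at h
  obtain ⟨k, hk⟩ := hF _ h
  exact Fd_of_smash K b f n (k + 1) hn (by omega) (smash_pos _ k hk)

include K in
theorem nilp_of_ker (hF : KerSmash F) {X : C} (f : X ⟶ X) (h : F.map f = 0) :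
    ∃ n, it f n = 0 := by
  obtain ⟨k, hk⟩ := hF _ h
  exact ⟨k + 1, nilp_of_smash K f (k + 1) (by omega) (smash_pos _ k hk)⟩

end Functor

end Pool.Agent.W_MP_868bb7_h79
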