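import Pool.Agent.W_MP_868bb7_ag.PowE
import Pool.Agent.W_MP_868bb7_ag.TraceK

set_option autoImplicit false

/-!
# Tr: transport of tensor powers and (anti)symmetrizers along a symmetric monoidal functor

`F : C ⥤ D` is a strong symmetric monoidal functor (Mathlib: `F.Braided`).  `pI F X n` is the
comparison `F (X^{⊗ n}) ≅ (F X)^{⊗ n}`.
-/

namespace Pool.Agent.W_MP_868bb7_h79

open CategoryTheory MonoidalCategory Functor.LaxMonoidal Functor.OplaxMonoidal
open Pool.Agent.W_MP_868bb7_ag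

universe v v' u u'

section Mon

variable {C : Type u} [Category.{v} C] [MonoidalCategory C]
  {D : Type u'} [Category.{v'} D] [MonoidalCategory D] (F : C ⥤ D) [F.Monoidal]

/-- comparison of tensor powers -/
def pI (X : C) : (n : ℕ) → (F.obj (pow X n) ≅ pow (F.obj X) n)
  | 0 => (Functor.Monoidal.εIso F).symm
  | n + 1 => (Functor.Monoidal.μIso F X (pow X n)).symm ≪≫ whiskerLeftIso (F.obj X) (pI X n)

theorem pI_succ_hom (X : C) (n : ℕ) :
    (pI F X (n + 1)).hom = δ F X (pow X n) ≫ F.obj X ◁ (pI F X n).hom := rfl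

theorem pI_succ_inv (X : C) (n : ℕ) :
    (pI F X (n + 1)).inv = F.obj X ◁ (pI F X n).inv ≫ μ F X (pow X n) := rfl

/-- tensor power of a morphism between images, as a morphism of images of tensor powers -/
def tP {X Y : C} (f : F.obj X ⟶ F.obj Y) (n : ℕ) : F.obj (pow X n) ⟶ F.obj (pow Y n) :=
  (pI F X n).hom ≫ powMap f n ≫ (pI F Y n).inv

theorem tP_zero {X Y : C} (f : F.obj X ⟶ F.obj Y) : tP F f 0 = F.map (𝟙 (𝟙_ C)) := by
  have h : tP F f 0 = (Functor.Monoidal.εIso F).symm.hom ≫ 𝟙 (𝟙_ D) ≫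
      (Functor.Monoidal.εIso F).symm.inv := rfl
  rw [h, Category.id_comp, Iso.hom_inv_id]
  exact (F.map_id _).symm

theorem tP_succ {X Y : C} (f : F.obj X ⟶ F.obj Y) (n : ℕ) :
    tP F f (n + 1) = δ F X (pow X n) ≫ (f ⊗ₘ tP F f n) ≫ μ F Y (pow Y n) := by
  have h : tP F f (n + 1) = (δ F X (pow X n) ≫ F.obj X ◁ (pI F X n).hom) ≫ (f ⊗ₘ powMap f n) ≫
      (F.obj Y ◁ (pI F Y n).inv ≫ μ F Y (pow Y n)) := rfl
  rw [h]
  unfold tP
  simp only [Category.assoc]
  congr 1
  rw [← Category.assoc, ← Category.assoc]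
  congr 1
  rw [← id_tensorHom, ← id_tensorHom, tensorHom_comp_tensorHom, tensorHom_comp_tensorHom,
    Category.id_comp, Category.comp_id, Category.assoc]

theorem tP_map {X Y : C} (f : X ⟶ Y) (n : ℕ) : tP F (F.map f) n = F.map (powMap f n) := by
  induction n with
  | zero => exact tP_zero F _
  | succ n ih =>
    rw [tP_succ, ih]
    exact (Functor.Monoidal.map_tensor F f (powMap f n)).symm

end Mon

section Sym

variable {C : Type u} [Category.{v} C] [MonoidalCategory C] [SymmetricCategory C]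
  {D : Type u'} [Category.{v'} D] [MonoidalCategory D] [SymmetricCategory D]
  (F : C ⥤ D) [F.Braided]

theorem sw_F (X Z : C) : F.map (sw X Z) ≫ δ F X (X ⊗ Z) ≫ F.obj X ◁ δ F X Z =
    (δ F X (X ⊗ Z) ≫ F.obj X ◁ δ F X Z) ≫ sw (F.obj X) (F.obj Z) := by
  unfold sw
  simp only [Functor.map_comp, Functor.Monoidal.map_associator, Functor.Monoidal.map_associator_inv,
    Functor.Monoidal.map_whiskerRight, Functor.map_braiding, Category.assoc, comp_whiskerRight,
    Functor.Monoidal.μ_δ_assoc, Functor.Monoidal.whiskerRight_μ_δ_assoc]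
  simp

/-- auxiliary: whiskering a commutative square -/
theorem wl_F (X : C) {Z Z' : C} {W W' : D} (a : Z ⟶ Z') (b : W ⟶ W') (i : F.obj Z ⟶ W)
    (j : F.obj Z' ⟶ W') (h : F.map a ≫ j = i ≫ b) :
    F.map (X ◁ a) ≫ δ F X Z' ≫ F.obj X ◁ j = (δ F X Z ≫ F.obj X ◁ i) ≫ F.obj X ◁ b := by
  rw [Functor.Monoidal.map_whiskerLeft]
  simp only [Category.assoc, Functor.Monoidal.μ_δ_assoc]
  rw [← MonoidalCategory.whiskerLeft_comp, ← MonoidalCategory.whiskerLeft_comp, h]

omit [SymmetricCategory C] [MonoidalCategory D] [SymmetricCategory D] [F.Braided]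
  [MonoidalCategory C] in
/-- auxiliary: composition of commutative squares -/
theorem sq_comp {A B E : C} {A' B' E' : D} {i : F.obj A ⟶ A'} {j : F.obj B ⟶ B'}
    {k : F.obj E ⟶ E'} {a : A ⟶ B} {a' : B ⟶ E} {b : A' ⟶ B'} {b' : B' ⟶ E'}
    (h1 : F.map a ≫ j = i ≫ b) (h2 : F.map a' ≫ k = j ≫ b') :
    F.map (a ≫ a') ≫ k = i ≫ (b ≫ b') := by
  rw [F.map_comp, Category.assoc, h2, ← Category.assoc, h1, Category.assoc]

omit [SymmetricCategory C] [MonoidalCategory D] [SymmetricCategory D] [F.Braided]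
  [MonoidalCategory C] in
theorem sq_id {A : C} {A' : D} (i : F.obj A ⟶ A') : F.map (𝟙 A) ≫ i = i ≫ 𝟙 A' := by
  rw [F.map_id, Category.id_comp, Category.comp_id]

theorem sw_F2 (X Z : C) {W : D} (i : F.obj Z ⟶ W) :
    F.map (sw X Z) ≫ δ F X (X ⊗ Z) ≫ F.obj X ◁ (δ F X Z ≫ F.obj X ◁ i) =
      (δ F X (X ⊗ Z) ≫ F.obj X ◁ (δ F X Z ≫ F.obj X ◁ i)) ≫ sw (F.obj X) W := by
  have h4 := sw_F F X Z
  have h5 := sw_nat (F.obj X) i
  rw [MonoidalCategory.whiskerLeft_comp]
  calc F.map (sw X Z) ≫ δ F X (X ⊗ Z) ≫ F.obj X ◁ δ F X Z ≫ F.obj X ◁ (F.obj X ◁ i)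
      = (F.map (sw X Z) ≫ δ F X (X ⊗ Z) ≫ F.obj X ◁ δ F X Z) ≫
        F.obj X ◁ (F.obj X ◁ i) := by simp only [Category.assoc]
    _ = (δ F X (X ⊗ Z) ≫ F.obj X ◁ δ F X Z) ≫
        (sw (F.obj X) (F.obj Z) ≫ F.obj X ◁ (F.obj X ◁ i)) := by
          rw [h4]
          simp only [Category.assoc]
    _ = _ := by
          rw [h5]
          simp only [Category.assoc]

theorem mv_F (X : C) (n p : ℕ) :
    F.map (mv X n p) ≫ (pI F X (n + 1)).hom = (pI F X (n + 1)).hom ≫ mv (F.obj X) n p := by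
  induction n generalizing p with
  | zero => exact sq_id F _
  | succ n ih =>
    cases p with
    | zero => exact sq_id F _
    | succ p =>
      exact sq_comp F (A := X ⊗ (X ⊗ pow X n)) (B := X ⊗ (X ⊗ pow X n)) (E := X ⊗ (X ⊗ pow X n))
        (A' := F.obj X ⊗ (F.obj X ⊗ pow (F.obj X) n)) (B' := F.obj X ⊗ (F.obj X ⊗ pow (F.obj X) n))
        (E' := F.obj X ⊗ (F.obj X ⊗ pow (F.obj X) n))
        (sw_F2 F X (pow X n) (pI F X n).hom)
        (wl_F F X (mv X n p) (mv (F.obj X) n p) (pI F X (n + 1)).hom (pI F X (n + 1)).hom (ih p))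

theorem act_F (X : C) (n : ℕ) (σ : Equiv.Perm (Fin n)) :
    F.map (act X n σ) ≫ (pI F X n).hom = (pI F X n).hom ≫ act (F.obj X) n σ := by
  induction n with
  | zero => exact sq_id F _
  | succ n ih =>
    exact sq_comp F (A := X ⊗ pow X n) (B := X ⊗ pow X n) (E := X ⊗ pow X n)
        (A' := F.obj X ⊗ pow (F.obj X) n) (B' := F.obj X ⊗ pow (F.obj X) n)
        (E' := F.obj X ⊗ pow (F.obj X) n)
        (wl_F F X (act X n (tail σ)) (act (F.obj X) n (tail σ)) (pI F X n).hom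
          (pI F X n).hom (ih (tail σ)))
        (mv_F F X n (σ 0 : Fin (n + 1)))

variable [Preadditive C] [Preadditive D] [F.Additive]

theorem E_F (b : Bool) (X : C) (n : ℕ) :
    F.map (E b X n) ≫ (pI F X n).hom = (pI F X n).hom ≫ E b (F.obj X) n := by
  unfold E
  rw [F.map_sum, Preadditive.sum_comp, Preadditive.comp_sum]
  refine Finset.sum_congr rfl fun σ _ => ?_
  rw [F.map_zsmul, Preadditive.zsmul_comp, Preadditive.comp_zsmul, act_F]

/-- the vanishing condition in terms of morphisms between images -/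
theorem tP_E (b : Bool) {X Y : C} (f : F.obj X ⟶ F.obj Y) (n : ℕ) :
    tP F f n ≫ F.map (E b Y n) = 0 ↔ powMap f n ≫ E b (F.obj Y) n = 0 := by
  have h : tP F f n ≫ F.map (E b Y n) =
      (pI F X n).hom ≫ (powMap f n ≫ E b (F.obj Y) n) ≫ (pI F Y n).inv := by
    rw [← cancel_mono (pI F Y n).hom]
    simp only [Category.assoc, Iso.inv_hom_id, Category.comp_id]
    rw [E_F]
    unfold tP
    simp only [Category.assoc, Iso.inv_hom_id_assoc]
  constructor
  · intro h1
    rw [h1] at h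
    rw [← cancel_epi (pI F X n).hom, ← cancel_mono (pI F Y n).inv, Category.assoc, ← h]
    simp
  · intro h1
    rw [h, h1]
    simp

theorem Fd_F (b : Bool) {X : C} (f : X ⟶ X) (h : Fd b f) : Fd b (F.map f) := by
  obtain ⟨n, hn, h⟩ := h
  refine ⟨n, hn, ?_⟩
  rw [← tP_E, tP_map, ← F.map_comp, h, F.map_zero]

theorem Fd_of_F [F.Faithful] (b : Bool) {X : C} (f : X ⟶ X) (h : Fd b (F.map f)) : Fd b f := by
  obtain ⟨n, hn, h⟩ := h
  refine ⟨n, hn, ?_⟩
  rw [← tP_E, tP_map, ← F.map_comp] at h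
  exact F.map_injective (h.trans (F.map_zero _ _).symm)

end Sym

end Pool.Agent.W_MP_868bb7_h79
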