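import Pool.Agent.W_MP_868bb7_h79.Tw
import Pool.Agent.W_MP_868bb7_h79.Smash

set_option autoImplicit false

/-!
# Desc: descent of the Kimura decomposition along a tensor functor with a group of symmetries
-/

namespace Pool.Agent.W_MP_868bb7_h79

open CategoryTheory MonoidalCategory Limits Functor.LaxMonoidal Functor.OplaxMonoidal
open Pool.Agent.W_MP_868bb7_ag

universe v v' u u' w w'

section NegIdem

variable (K : Type w) [Field K] [CharZero K]
  {D : Type u'} [Category.{v'} D] [MonoidalCategory D] [Preadditive D] [Linear K D]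
  [MonoidalPreadditive D] [MonoidalLinear K D]
  [SymmetricCategory D] [RightRigidCategory D] [UnitK K D]

/-- two parity idempotents are congruent modulo negligible morphisms -/
theorem neg_sub_of_idem {X : D} (e y : X ⟶ X)
    (he1 : Fd true e) (he2 : Fd false (𝟙 X - e)) (hy1 : Fd true y) (hy2 : Fd false (𝟙 X - y)) :
    Neg K (y - e) := by
  have h : y - e = y ≫ (𝟙 X - e) - (𝟙 X - y) ≫ e := by
    rw [Preadditive.comp_sub, Preadditive.sub_comp, Category.comp_id, Category.id_comp]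
    abel
  rw [h]
  apply Neg_sub
  · intro g
    have h1 := datMixed K true y (𝟙 X - e) (𝟙 X) g hy1 he2
    rw [Category.id_comp] at h1
    rw [Category.assoc]
    exact h1
  · intro g
    have h1 := datMixed K false (𝟙 X - y) e (𝟙 X) g hy2 he1
    rw [Category.id_comp] at h1
    rw [Category.assoc]
    exact h1

/-- an endomorphism congruent to the identity of an object of pure type is invertible -/
theorem isUnit_of_neg (b : Bool) {X : D} (u : X ⟶ X) (h : Fd b (𝟙 X)) (hu : Neg K (𝟙 X - u)) :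
    ∃ v : X ⟶ X, u ≫ v = 𝟙 X ∧ v ≫ u = 𝟙 X := by
  obtain ⟨n, hn, hn2⟩ := h
  have h1 : powMap (𝟙 X - u) n ≫ E b X n = 0 := by
    have h2 := powMap_conj_zero b (𝟙 X) (𝟙 X - u) n hn2
    rwa [Category.id_comp] at h2
  have h3 := it_zero_of_neg K b (𝟙 X - u) n hn h1 hu
  have hnil : IsNilpotent (show End X from (𝟙 X - u)) := ⟨n, by rw [← it_eq_pow]; exact h3⟩
  obtain ⟨a, ha⟩ := hnil.isUnit_one_sub
  have h4 : (1 : End X) - (show End X from (𝟙 X - u)) = (show End X from u) := by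
    change 𝟙 X - (𝟙 X - u) = u
    abel
  rw [h4] at ha
  refine ⟨(show X ⟶ X from (↑a⁻¹ : End X)), ?_, ?_⟩
  · have h5 : ((↑a⁻¹ : End X) * (↑a : End X)) = 1 := a.inv_mul
    rw [ha] at h5
    exact h5
  · have h5 : ((↑a : End X) * (↑a⁻¹ : End X)) = 1 := a.mul_inv
    rw [ha] at h5
    exact h5

/-- images of congruent idempotents of pure type are isomorphic -/
theorem iso_of_neg (b : Bool) {X P Q : D} (i : P ⟶ X) (p : X ⟶ P) (j : Q ⟶ X) (q : X ⟶ Q)
    (hip : i ≫ p = 𝟙 P) (hjq : j ≫ q = 𝟙 Q) (hP : Fd b (𝟙 P)) (hQ : Fd b (𝟙 Q))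
    (h : Neg K (p ≫ i - q ≫ j)) : Nonempty (P ≅ Q) := by
  have h1 : Neg K (𝟙 P - (i ≫ q) ≫ (j ≫ p)) := by
    have h2 : 𝟙 P - (i ≫ q) ≫ (j ≫ p) = i ≫ (p ≫ i - q ≫ j) ≫ p := by
      rw [Preadditive.sub_comp, Preadditive.comp_sub]
      simp only [Category.assoc]
      rw [hip, Category.comp_id, hip]
    rw [h2]
    exact Neg_comp_left K _ _ (Neg_comp_right K _ _ h)
  have h1' : Neg K (𝟙 Q - (j ≫ p) ≫ (i ≫ q)) := by
    have h2 : 𝟙 Q - (j ≫ p) ≫ (i ≫ q) = - (j ≫ (p ≫ i - q ≫ j) ≫ q) := by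
      rw [Preadditive.sub_comp, Preadditive.comp_sub]
      simp only [Category.assoc]
      rw [hjq, Category.comp_id, hjq]
      abel
    rw [h2]
    have h3 : Neg K (j ≫ (p ≫ i - q ≫ j) ≫ q) :=
      Neg_comp_left K _ _ (Neg_comp_right K _ _ h)
    intro g
    have h4 := h3 g
    rw [Preadditive.neg_comp, tr_neg, h4, neg_zero]
  obtain ⟨a, ha, _⟩ := isUnit_of_neg K b _ hP h1
  obtain ⟨c, _, hc⟩ := isUnit_of_neg K b _ hQ h1'
  -- `(i ≫ q)` has a right inverse `(j ≫ p) ≫ a` and a left inverse `c ≫ (j ≫ p)`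
  have e1 : (i ≫ q) ≫ ((j ≫ p) ≫ a) = 𝟙 P := by
    rw [← Category.assoc, ha]
  have e2 : (c ≫ (j ≫ p)) ≫ (i ≫ q) = 𝟙 Q := by
    rw [Category.assoc, hc]
  have e3 : (j ≫ p) ≫ a = c ≫ (j ≫ p) := by
    calc (j ≫ p) ≫ a = ((c ≫ (j ≫ p)) ≫ (i ≫ q)) ≫ ((j ≫ p) ≫ a) := by
          rw [e2, Category.id_comp]
      _ = (c ≫ (j ≫ p)) ≫ ((i ≫ q) ≫ ((j ≫ p) ≫ a)) := by rw [Category.assoc]
      _ = c ≫ (j ≫ p) := by rw [e1, Category.comp_id]
  exact ⟨⟨i ≫ q, (j ≫ p) ≫ a, e1, by rw [e3, e2]⟩⟩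

end NegIdem

variable (K : Type w) [Field K] [CharZero K]
  {C : Type u} [Category.{v} C] [MonoidalCategory C] [Preadditive C] [Linear K C]
  [SymmetricCategory C] [RightRigidCategory C]
  {D : Type u'} [Category.{v'} D] [MonoidalCategory D] [Preadditive D] [Linear K D]
  [MonoidalPreadditive D] [MonoidalLinear K D]
  [SymmetricCategory D] [RightRigidCategory D] [UnitK K D]
  (F : C ⥤ D) [F.Braided] [F.Additive]

variable {K} {F}

/-- the span of all `γ h - h` -/
def coinv {Γ : Type w'} (T : Γ → Tw K F) (X : C) : Submodule K (F.obj X ⟶ F.obj X) :=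
  Submodule.span K {x | ∃ (g : Γ) (h : F.obj X ⟶ F.obj X), x = (T g).t h - h}

theorem coinv_tr {Γ : Type w'} (T : Γ → Tw K F) {X : C} (d : F.obj X ⟶ F.obj X)
    (hd : d ∈ coinv T X) (g₀ : X ⟶ X) : tr K (d ≫ F.map g₀) = 0 := by
  unfold coinv at hd
  induction hd using Submodule.span_induction with
  | mem x hx =>
    obtain ⟨g, h, rfl⟩ := hx
    rw [Preadditive.sub_comp, tr_sub]
    have h1 : (T g).t h ≫ F.map g₀ = (T g).t (h ≫ F.map g₀) := by
      rw [(T g).comp, (T g).fix]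
    rw [h1, (T g).tr_t, sub_self]
  | zero => rw [zero_comp, tr_zero]
  | add x y _ _ hx hy => rw [Preadditive.add_comp, tr_add, hx, hy, add_zero]
  | smul a x _ hx => rw [Linear.smul_comp, tr_smul, hx, mul_zero]

theorem neg_of_inv {Γ : Type w'} [Group Γ] (T : Γ → Tw K F)
    (hinv : ∀ (g : Γ) {X : C} (f : F.obj X ⟶ F.obj X), (T g⁻¹).t ((T g).t f) = f) {X : C}
    (e : F.obj X ⟶ F.obj X) (he : ∀ g : Γ, Neg K ((T g).t e - e)) (f₀ : X ⟶ X)
    (hd : e - F.map f₀ ∈ coinv T X)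
    (hred : ∀ f : F.obj X ⟶ F.obj X, ∃ f' : X ⟶ X, f - F.map f' ∈ coinv T X) :
    Neg K (e - F.map f₀) := by
  have key : ∀ s ∈ coinv T X, tr K ((e - F.map f₀) ≫ s) = 0 := by
    intro s hs
    unfold coinv at hs
    induction hs using Submodule.span_induction with
    | mem x hx =>
      obtain ⟨g, h, rfl⟩ := hx
      rw [Preadditive.comp_sub, tr_sub]
      have h1 : tr K ((e - F.map f₀) ≫ (T g).t h) =
          tr K ((T g⁻¹).t (e - F.map f₀) ≫ h) := by
        rw [← (T g⁻¹).tr_t, (T g⁻¹).comp, hinv]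
      rw [h1, ← tr_sub, ← Preadditive.sub_comp]
      have h2 : (T g⁻¹).t (e - F.map f₀) - (e - F.map f₀) = (T g⁻¹).t e - e := by
        rw [map_sub, (T g⁻¹).fix]
        abel
      rw [h2]
      exact he g⁻¹ h
    | zero => rw [comp_zero, tr_zero]
    | add x y _ _ hx hy => rw [Preadditive.comp_add, tr_add, hx, hy, add_zero]
    | smul a x _ hx => rw [Linear.comp_smul, tr_smul, hx, mul_zero]
  intro g
  obtain ⟨g', hg'⟩ := hred g
  have h1 : (e - F.map f₀) ≫ g = (e - F.map f₀) ≫ F.map g' + (e - F.map f₀) ≫ (g - F.map g') := by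
    rw [← Preadditive.comp_add]
    congr 1
    abel
  rw [h1, tr_add, coinv_tr T _ hd g', key _ hg', add_zero]

theorem map_it {X : C} (f : X ⟶ X) (k : ℕ) : it (F.map f) k = F.map (it f k) := by
  induction k with
  | zero => exact (F.map_id X).symm
  | succ k ih =>
    change F.map f ≫ it (F.map f) k = F.map (f ≫ it f k)
    rw [ih, F.map_comp]

variable [MonoidalPreadditive C] [MonoidalLinear K C] [UnitK K C]

/-- the parity idempotent descends -/
theorem descent_idem (hF : KerSmash F) {X : C} (e : F.obj X ⟶ F.obj X) (he : e ≫ e = e)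
    (h1 : Fd true e) (h2 : Fd false (𝟙 (F.obj X) - e)) (f₀ : X ⟶ X)
    (hneg : Neg K (e - F.map f₀)) :
    ∃ w : X ⟶ X, w ≫ w = w ∧ Fd true w ∧ Fd false (𝟙 X - w) ∧ Neg K (F.map w - e) := by
  -- `f₀ ≫ f₀ - f₀` becomes negligible, hence nilpotent
  have hn : Neg K (F.map (f₀ ≫ f₀ - f₀)) := by
    obtain ⟨d, hd⟩ : ∃ d, d = e - F.map f₀ := ⟨_, rfl⟩
    rw [← hd] at hneg
    have h3 : F.map f₀ = e - d := by rw [hd]; abel
    have h4 : F.map (f₀ ≫ f₀ - f₀) = d + d ≫ d - (e ≫ d + d ≫ e) := by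
      rw [F.map_sub, F.map_comp, h3]
      simp only [Preadditive.comp_sub, Preadditive.sub_comp, he]
      abel
    rw [h4]
    exact Neg_sub K _ _ (Neg_add K _ _ hneg (Neg_comp_right K _ _ hneg))
      (Neg_add K _ _ (Neg_comp_left K _ _ hneg) (Neg_comp_right K _ _ hneg))
  obtain ⟨k, hk⟩ := neg_nil K true e he h1 h2 _ hn
  rw [map_it] at hk
  obtain ⟨n, hk'⟩ := nilp_of_ker K F hF _ hk
  have hnil : IsNilpotent ((show End X from f₀) * (show End X from f₀) - (show End X from f₀)) := by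
    refine ⟨k * n, ?_⟩
    rw [it_eq_pow, it_eq_pow] at hk'
    rw [pow_mul]
    exact hk'
  obtain ⟨w, q, hw, hwq, _, _⟩ := idem_lift (show End X from f₀) hnil
  have hwq' : (show X ⟶ X from w) - f₀ = (show X ⟶ X from q) ≫ (f₀ ≫ f₀ - f₀) := by
    have h3 : w - (show End X from f₀) =
      ((show End X from f₀) * (show End X from f₀) - (show End X from f₀)) * q := by
      rw [hwq]
      abel
    exact h3
  have hww : (show X ⟶ X from w) ≫ (show X ⟶ X from w) = w := hw
  have hnw : Neg K (F.map (show X ⟶ X from w) - e) := by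
    have h3 : F.map (show X ⟶ X from w) - e =
        F.map (show X ⟶ X from q) ≫ F.map (f₀ ≫ f₀ - f₀) - (e - F.map f₀) := by
      rw [← F.map_comp, ← hwq', F.map_sub]
      abel
    rw [h3]
    exact Neg_sub K _ _ (Neg_comp_left K _ _ hn) hneg
  have hw1 : Fd true (F.map (show X ⟶ X from w)) := by
    apply Fd_of_neg K true e _ he (by rw [← F.map_comp, hww]) h1 h2
    have h3 : F.map (show X ⟶ X from w) ≫ (𝟙 (F.obj X) - e) =
        (F.map (show X ⟶ X from w) - e) ≫ (𝟙 (F.obj X) - e) := by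
      simp only [Preadditive.comp_sub, Preadditive.sub_comp, Category.comp_id, he]
      abel
    rw [h3]
    exact Neg_comp_right K _ _ hnw
  have hw2 : Fd false (𝟙 (F.obj X) - F.map (show X ⟶ X from w)) := by
    have h5 : (𝟙 (F.obj X) - e) ≫ (𝟙 (F.obj X) - e) = 𝟙 (F.obj X) - e := by
      simp [he]
    have h6 : 𝟙 (F.obj X) - (𝟙 (F.obj X) - e) = e := by abel
    have h7 : F.map (show X ⟶ X from w) ≫ F.map (show X ⟶ X from w) =
        F.map (show X ⟶ X from w) := by rw [← F.map_comp, hww]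
    apply Fd_of_neg K false (𝟙 (F.obj X) - e) _ h5 (by
      simp only [Preadditive.comp_sub, Preadditive.sub_comp, Category.comp_id, Category.id_comp,
        h7]
      abel) h2 (by rw [h6]; exact h1)
    rw [h6]
    have h3 : (𝟙 (F.obj X) - F.map (show X ⟶ X from w)) ≫ e =
        - ((F.map (show X ⟶ X from w) - e) ≫ e) := by
      simp only [Preadditive.sub_comp, Category.id_comp, he]
      abel
    rw [h3]
    have h4 : Neg K ((F.map (show X ⟶ X from w) - e) ≫ e) := Neg_comp_right K _ _ hnw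
    intro g
    rw [Preadditive.neg_comp, tr_neg, h4 g, neg_zero]
  refine ⟨w, hww, Fd_of_ker K F hF true _ hw1, ?_, hnw⟩
  apply Fd_of_ker K F hF false
  rw [F.map_sub, F.map_id]
  exact hw2

end Pool.Agent.W_MP_868bb7_h79
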