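import Pool.Agent.W_MP_868bb7_h79.Obj

set_option autoImplicit false

/-!
# Grad: graded functors

The morphism spaces `Hom (F X, F Y)` are `ℤ`-graded, compatibly with composition and tensor product,
and the part of degree `0` is the image of `Hom (X, Y)`.  The symmetries are the multiplications by
`t ^ i` in degree `i`.
-/

namespace Pool.Agent.W_MP_868bb7_h79

open CategoryTheory MonoidalCategory Limits Functor.LaxMonoidal Functor.OplaxMonoidal
open Pool.Agent.W_MP_868bb7_ag

universe v v' u u' w w'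

section Lin

variable {K : Type w} [Field K] {V : Type w'} [AddCommGroup V] [Module K V]

/-- multiplication by `u i` in degree `i` -/
noncomputable def op (A : ℤ → Submodule K V) (h : DirectSum.IsInternal A) (u : ℤ → K) :
    V →ₗ[K] V :=
  (DirectSum.toModule K ℤ V (fun i => u i • (A i).subtype)) ∘ₗ
    (LinearEquiv.ofBijective (DirectSum.coeLinearMap A) h).symm.toLinearMap

theorem op_mem (A : ℤ → Submodule K V) (h : DirectSum.IsInternal A) (u : ℤ → K) (i : ℤ) (x : V)
    (hx : x ∈ A i) : op A h u x = u i • x := by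
  have h1 : (LinearEquiv.ofBijective (DirectSum.coeLinearMap A) h).symm x =
      DirectSum.lof K ℤ (fun i => A i) i ⟨x, hx⟩ := by
    rw [LinearEquiv.symm_apply_eq]
    exact (DirectSum.coeLinearMap_lof A i ⟨x, hx⟩).symm
  unfold op
  rw [LinearMap.comp_apply]
  change DirectSum.toModule K ℤ V (fun i => u i • (A i).subtype)
    ((LinearEquiv.ofBijective (DirectSum.coeLinearMap A) h).symm x) = _
  rw [h1, DirectSum.toModule_lof]
  rfl

theorem grad_induction (A : ℤ → Submodule K V) (h : DirectSum.IsInternal A) (p : V → Prop)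
    (hm : ∀ i x, x ∈ A i → p x) (h0 : p 0) (ha : ∀ x y, p x → p y → p (x + y)) (x : V) : p x := by
  have hx : x ∈ iSup A := by
    rw [h.submodule_iSup_eq_top]
    trivial
  exact Submodule.iSup_induction A (motive := p) hx hm h0 ha

end Lin

variable (K : Type w) [Field K]
  {C : Type u} [Category.{v} C] [MonoidalCategory C] [Preadditive C] [Linear K C]
  [SymmetricCategory C] [RightRigidCategory C]
  {D : Type u'} [Category.{v'} D] [MonoidalCategory D] [Preadditive D] [Linear K D]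
  [MonoidalPreadditive D] [MonoidalLinear K D]
  [SymmetricCategory D] [RightRigidCategory D]
  (F : C ⥤ D) [F.Braided] [F.Additive]

/-- a grading of the morphisms between images, compatible with composition and tensor product,
whose part of degree `0` consists of the images of the morphisms -/
structure Gr where
  G : ∀ X Y : C, ℤ → Submodule K (F.obj X ⟶ F.obj Y)
  int : ∀ X Y : C, DirectSum.IsInternal (G X Y)
  comp : ∀ {X Y Z : C} (i j : ℤ) (f : F.obj X ⟶ F.obj Y) (g : F.obj Y ⟶ F.obj Z),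
    f ∈ G X Y i → g ∈ G Y Z j → f ≫ g ∈ G X Z (i + j)
  tens : ∀ {X Y X' Y' : C} (i j : ℤ) (f : F.obj X ⟶ F.obj Y) (g : F.obj X' ⟶ F.obj Y'),
    f ∈ G X Y i → g ∈ G X' Y' j →
      δ F X X' ≫ (f ⊗ₘ g) ≫ μ F Y Y' ∈ G (X ⊗ X') (Y ⊗ Y') (i + j)
  zero : ∀ {X Y : C} (f : F.obj X ⟶ F.obj Y), f ∈ G X Y 0 ↔ ∃ f' : X ⟶ Y, F.map f' = f

variable {K} {F}

namespace Gr

variable (R : Gr K F)

/-- the symmetry given by `t` -/
noncomputable def tw (t : Kˣ) : Tw K F where
  t {X Y} := op (R.G X Y) (R.int X Y) (fun i => ((t ^ i : Kˣ) : K))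
  comp {X Y Z} f g := by
    refine grad_induction (R.G X Y) (R.int X Y) (fun f => op (R.G X Z) (R.int X Z) _ (f ≫ g) =
      op (R.G X Y) (R.int X Y) _ f ≫ op (R.G Y Z) (R.int Y Z) _ g) ?_ ?_ ?_ f
    · intro i f hf
      refine grad_induction (R.G Y Z) (R.int Y Z) (fun g => op (R.G X Z) (R.int X Z) _ (f ≫ g) =
        op (R.G X Y) (R.int X Y) _ f ≫ op (R.G Y Z) (R.int Y Z) _ g) ?_ ?_ ?_ g
      · intro j g hg
        rw [op_mem _ _ _ _ _ (R.comp i j f g hf hg), op_mem _ _ _ _ _ hf, op_mem _ _ _ _ _ hg,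
          Linear.smul_comp, Linear.comp_smul, smul_smul, zpow_add, Units.val_mul]
      · simp
      · intro x y hx hy
        rw [Preadditive.comp_add, map_add, map_add, Preadditive.comp_add, hx, hy]
    · simp
    · intro x y hx hy
      rw [Preadditive.add_comp, map_add, map_add, Preadditive.add_comp, hx, hy]
  fix {X Y} f := by
    rw [op_mem _ _ _ 0 _ ((R.zero _).2 ⟨f, rfl⟩), zpow_zero, Units.val_one, one_smul]
  tens {X Y X' Y'} f g := by
    refine grad_induction (R.G X Y) (R.int X Y) (fun f =>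
      op (R.G (X ⊗ X') (Y ⊗ Y')) (R.int (X ⊗ X') (Y ⊗ Y')) _ (δ F X X' ≫ (f ⊗ₘ g) ≫ μ F Y Y') =
      δ F X X' ≫ (op (R.G X Y) (R.int X Y) _ f ⊗ₘ op (R.G X' Y') (R.int X' Y') _ g) ≫ μ F Y Y')
      ?_ ?_ ?_ f
    · intro i f hf
      refine grad_induction (R.G X' Y') (R.int X' Y') (fun g =>
        op (R.G (X ⊗ X') (Y ⊗ Y')) (R.int (X ⊗ X') (Y ⊗ Y')) _ (δ F X X' ≫ (f ⊗ₘ g) ≫ μ F Y Y') =
        δ F X X' ≫ (op (R.G X Y) (R.int X Y) _ f ⊗ₘ op (R.G X' Y') (R.int X' Y') _ g) ≫ μ F Y Y')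
        ?_ ?_ ?_ g
      · intro j g hg
        rw [op_mem _ _ _ _ _ (R.tens i j f g hf hg), op_mem _ _ _ _ _ hf, op_mem _ _ _ _ _ hg,
          zpow_add, Units.val_mul]
        simp only [MonoidalCategory.tensorHom_def, MonoidalLinear.smul_whiskerRight,
          MonoidalLinear.whiskerLeft_smul, Linear.smul_comp, Linear.comp_smul, smul_smul,
          Category.assoc]
        rw [mul_comm]
      · simp
      · intro x y hx hy
        rw [map_add, MonoidalPreadditive.tensor_add, MonoidalPreadditive.tensor_add,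
          Preadditive.add_comp, Preadditive.add_comp, Preadditive.comp_add, Preadditive.comp_add,
          map_add, hx, hy]
    · simp
    · intro x y hx hy
      rw [map_add, MonoidalPreadditive.add_tensor, MonoidalPreadditive.add_tensor,
        Preadditive.add_comp, Preadditive.add_comp, Preadditive.comp_add, Preadditive.comp_add,
        map_add, hx, hy]

theorem tw_mem (t : Kˣ) {X Y : C} (i : ℤ) (f : F.obj X ⟶ F.obj Y) (hf : f ∈ R.G X Y i) :
    (R.tw t).t f = ((t ^ i : Kˣ) : K) • f :=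
  op_mem _ _ _ i f hf

theorem tw_inv (t : Kˣ) {X : C} (f : F.obj X ⟶ F.obj X) : (R.tw t⁻¹).t ((R.tw t).t f) = f := by
  refine grad_induction (R.G X X) (R.int X X) (fun f => (R.tw t⁻¹).t ((R.tw t).t f) = f)
    ?_ ?_ ?_ f
  · intro i f hf
    rw [tw_mem R t i f hf, map_smul, tw_mem R t⁻¹ i f hf, smul_smul, ← Units.val_mul, ← mul_zpow,
      mul_inv_cancel, one_zpow, Units.val_one, one_smul]
  · simp
  · intro x y hx hy
    rw [map_add, map_add, hx, hy]

theorem tw_red [CharZero K] {X : C} (f : F.obj X ⟶ F.obj X) :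
    ∃ f' : X ⟶ X, f - F.map f' ∈ coinv R.tw X := by
  refine grad_induction (R.G X X) (R.int X X) (fun f => ∃ f' : X ⟶ X,
    f - F.map f' ∈ coinv R.tw X) ?_ ?_ ?_ f
  · intro i f hf
    by_cases hi : i = 0
    · subst hi
      obtain ⟨f', hf'⟩ := (R.zero f).1 hf
      refine ⟨f', ?_⟩
      rw [hf', sub_self]
      exact Submodule.zero_mem _
    · refine ⟨0, ?_⟩
      rw [F.map_zero, sub_zero]
      obtain ⟨t, ht⟩ : ∃ t : Kˣ, (t : K) = 2 := ⟨Units.mk0 2 two_ne_zero, rfl⟩
      have h1 : ((t ^ i : Kˣ) : K) - 1 ≠ 0 := by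
        rw [sub_ne_zero, Units.val_zpow_eq_zpow_val, ht]
        intro h2
        have h3 : ((2 : ℚ) ^ i : ℚ) = 1 := by
          have h4 : (((2 : ℚ) ^ i : ℚ) : K) = ((1 : ℚ) : K) := by
            push_cast
            exact h2
          exact_mod_cast h4
        have h5 := zpow_eq_one_iff_right₀ (a := (2 : ℚ)) (by norm_num) (by norm_num) (n := i)
        exact hi (h5.1 h3)
      have h2 : f = (R.tw t).t ((((t ^ i : Kˣ) : K) - 1)⁻¹ • f) -
          (((t ^ i : Kˣ) : K) - 1)⁻¹ • f := by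
        rw [map_smul, tw_mem R t i f hf, smul_smul, ← sub_smul]
        have h3 : (((t ^ i : Kˣ) : K) - 1)⁻¹ * ((t ^ i : Kˣ) : K) - (((t ^ i : Kˣ) : K) - 1)⁻¹ =
            1 := by
          field_simp
        rw [h3, one_smul]
      exact Submodule.subset_span ⟨t, _, h2⟩
  · refine ⟨0, ?_⟩
    rw [F.map_zero, sub_zero]
    exact Submodule.zero_mem _
  · rintro x y ⟨x', hx⟩ ⟨y', hy⟩
    refine ⟨x' + y', ?_⟩
    rw [F.map_add]
    have h1 : x + y - (F.map x' + F.map y') = (x - F.map x') + (y - F.map y') := by abel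
    rw [h1]
    exact Submodule.add_mem _ hx hy

end Gr

/-- the graded case of the descent theorem -/
theorem graded_descent [CharZero K] [UnitK K C] [UnitK K D] [MonoidalPreadditive C]
    [MonoidalLinear K C] [IsIdempotentComplete C] [HasBinaryBiproducts C] [HasBinaryBiproducts D]
    (hF : KerSmash F) (R : Gr K F) (M : C) :
    (KimuraFD K M ↔ KimuraFD K (F.obj M)) ∧
    ∀ P Q : D, EvenFD K P → OddFD K Q → Nonempty (F.obj M ≅ P ⊞ Q) →
      ∃ P' Q' : C, EvenFD K P' ∧ OddFD K Q' ∧ Nonempty (M ≅ P' ⊞ Q') ∧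
        Nonempty (F.obj P' ≅ P) ∧ Nonempty (F.obj Q' ≅ Q) := by
  refine ⟨descent_kimura K hF R.tw R.tw_inv R.tw_red, fun P Q hP hQ hφ => ?_⟩
  obtain ⟨φ⟩ := hφ
  exact descent_obj K hF R.tw R.tw_inv R.tw_red P Q hP hQ φ

end Pool.Agent.W_MP_868bb7_h79
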