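import Pool.Agent.W_MP_868bb7_h79.Desc

set_option autoImplicit false

/-!
# Obj: descent of the Kimura decomposition, object form
-/

namespace Pool.Agent.W_MP_868bb7_h79

open CategoryTheory MonoidalCategory Limits Functor.LaxMonoidal Functor.OplaxMonoidal
open Pool.Agent.W_MP_868bb7_ag

universe v v' u u' w w'

theorem split_two {C : Type u} [Category.{v} C] [Preadditive C] [HasBinaryBiproducts C]
    [IsIdempotentComplete C] {X : C} (u : X ⟶ X) (h : u ≫ u = u) :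
    ∃ (P Q : C) (i : P ⟶ X) (e : X ⟶ P) (j : Q ⟶ X) (f : X ⟶ Q), i ≫ e = 𝟙 P ∧ e ≫ i = u ∧
      j ≫ f = 𝟙 Q ∧ f ≫ j = 𝟙 X - u ∧ Nonempty (X ≅ P ⊞ Q) := by
  have h' : (𝟙 X - u) ≫ (𝟙 X - u) = 𝟙 X - u := by
    simp [Preadditive.sub_comp, Preadditive.comp_sub, h]
  obtain ⟨P, i, e, hie, hei⟩ := IsIdempotentComplete.idempotents_split X u h
  obtain ⟨Q, j, f, hjf, hfj⟩ := IsIdempotentComplete.idempotents_split X (𝟙 X - u) h'
  have h12 : u ≫ (𝟙 X - u) = 0 := by
    rw [Preadditive.comp_sub, Category.comp_id, h, sub_self]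
  have h21 : (𝟙 X - u) ≫ u = 0 := by
    rw [Preadditive.sub_comp, Category.id_comp, h, sub_self]
  have hiu : i ≫ u = i := by
    rw [← hei, ← Category.assoc, hie, Category.id_comp]
  have hjv : j ≫ (𝟙 X - u) = j := by
    rw [← hfj, ← Category.assoc, hjf, Category.id_comp]
  have hvf : (𝟙 X - u) ≫ f = f := by
    rw [← hfj, Category.assoc, hjf, Category.comp_id]
  have hue : u ≫ e = e := by
    rw [← hei, Category.assoc, hie, Category.comp_id]
  have hif : i ≫ f = 0 := by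
    rw [← hiu, ← hvf, Category.assoc, ← Category.assoc u, h12, zero_comp, comp_zero]
  have hje : j ≫ e = 0 := by
    rw [← hjv, ← hue, Category.assoc, ← Category.assoc (𝟙 X - u), h21, zero_comp, comp_zero]
  refine ⟨P, Q, i, e, j, f, hie, hei, hjf, hfj, ⟨⟨biprod.lift e f, biprod.desc i j, ?_, ?_⟩⟩⟩
  · rw [biprod.lift_desc, hei, hfj, add_sub_cancel]
  · ext
    · simp [hie]
    · simp [hif]
    · simp [hje]
    · simp [hjf]

variable (K : Type w) [Field K] [CharZero K]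
  {C : Type u} [Category.{v} C] [MonoidalCategory C] [Preadditive C] [Linear K C]
  [SymmetricCategory C] [RightRigidCategory C] [HasBinaryBiproducts C]
  {D : Type u'} [Category.{v'} D] [MonoidalCategory D] [Preadditive D] [Linear K D]
  [MonoidalPreadditive D] [MonoidalLinear K D]
  [SymmetricCategory D] [RightRigidCategory D] [HasBinaryBiproducts D]
  (F : C ⥤ D) [F.Braided] [F.Additive]

omit [RightRigidCategory C] [MonoidalPreadditive D] [MonoidalLinear K D]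
  [RightRigidCategory D] in
/-- the image of a Kimura finite-dimensional object -/
theorem kimura_map {M : C} (h : KimuraFD K M) : KimuraFD K (F.obj M) := by
  obtain ⟨P, Q, hP, hQ, ⟨φ⟩⟩ := h
  refine ⟨F.obj P, F.obj Q, ?_, ?_, ⟨⟨F.map φ.hom ≫ biprod.lift (F.map biprod.fst)
    (F.map biprod.snd), biprod.desc (F.map biprod.inl) (F.map biprod.inr) ≫ F.map φ.inv,
    ?_, ?_⟩⟩⟩
  · rw [← Fd_even, ← F.map_id]
    exact Fd_F F true _ ((Fd_even K P).2 hP)
  · rw [← Fd_odd, ← F.map_id]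
    exact Fd_F F false _ ((Fd_odd K Q).2 hQ)
  · simp only [Category.assoc]
    rw [← Category.assoc (biprod.lift _ _), biprod.lift_desc, ← F.map_comp, ← F.map_comp,
      ← F.map_add, biprod.total, F.map_id, Category.id_comp, ← F.map_comp, φ.hom_inv_id, F.map_id]
  · simp only [Category.assoc]
    rw [← Category.assoc (F.map φ.inv), ← F.map_comp, φ.inv_hom_id, F.map_id, Category.id_comp]
    ext
    · simp [← F.map_comp]
    · simp [← F.map_comp]
    · simp [← F.map_comp]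
    · simp [← F.map_comp]

variable [UnitK K D] [MonoidalPreadditive C] [MonoidalLinear K C] [UnitK K C]
  [IsIdempotentComplete C]

variable {F}

/-- descent of a decomposition -/
theorem descent_obj (hF : KerSmash F) {Γ : Type w'} [Group Γ] (T : Γ → Tw K F)
    (hinv : ∀ (g : Γ) {X : C} (f : F.obj X ⟶ F.obj X), (T g⁻¹).t ((T g).t f) = f) {M : C}
    (hred : ∀ f : F.obj M ⟶ F.obj M, ∃ f' : M ⟶ M, f - F.map f' ∈ coinv T M)
    (P Q : D) (hP : EvenFD K P) (hQ : OddFD K Q) (φ : F.obj M ≅ P ⊞ Q) :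
    ∃ P' Q' : C, EvenFD K P' ∧ OddFD K Q' ∧ Nonempty (M ≅ P' ⊞ Q') ∧
      Nonempty (F.obj P' ≅ P) ∧ Nonempty (F.obj Q' ≅ Q) := by
  rw [← Fd_even] at hP
  rw [← Fd_odd] at hQ
  obtain ⟨p, hp⟩ : ∃ p : F.obj M ⟶ P, p = φ.hom ≫ biprod.fst := ⟨_, rfl⟩
  obtain ⟨i, hi⟩ : ∃ i : P ⟶ F.obj M, i = biprod.inl ≫ φ.inv := ⟨_, rfl⟩
  obtain ⟨q, hq⟩ : ∃ q : F.obj M ⟶ Q, q = φ.hom ≫ biprod.snd := ⟨_, rfl⟩
  obtain ⟨j, hj⟩ : ∃ j : Q ⟶ F.obj M, j = biprod.inr ≫ φ.inv := ⟨_, rfl⟩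
  have hip : i ≫ p = 𝟙 P := by rw [hi, hp]; simp
  have hjq : j ≫ q = 𝟙 Q := by rw [hj, hq]; simp
  have htot : p ≫ i + q ≫ j = 𝟙 (F.obj M) := by
    have h1 : 𝟙 (F.obj M) =
        φ.hom ≫ (biprod.fst ≫ biprod.inl + biprod.snd ≫ biprod.inr) ≫ φ.inv := by
      rw [biprod.total, Category.id_comp, φ.hom_inv_id]
    rw [h1, Preadditive.add_comp, Preadditive.comp_add, hi, hp, hq, hj]
    simp only [Category.assoc]
  have hqj : 𝟙 (F.obj M) - p ≫ i = q ≫ j := by
    rw [← htot]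
    abel
  have he : (p ≫ i) ≫ (p ≫ i) = p ≫ i := by
    rw [Category.assoc, ← Category.assoc i, hip, Category.id_comp]
  have h1 : Fd true (p ≫ i) := by
    have h := Fd_conj true p (𝟙 P) i hP
    rwa [Category.id_comp] at h
  have h2 : Fd false (𝟙 (F.obj M) - p ≫ i) := by
    rw [hqj]
    have h := Fd_conj false q (𝟙 Q) j hQ
    rwa [Category.id_comp] at h
  have hg : ∀ g : Γ, Neg K ((T g).t (p ≫ i) - p ≫ i) := by
    intro g
    apply neg_sub_of_idem K _ _ h1 h2 ((T g).Fd_t true _ h1)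
    have h3 := (T g).Fd_t false _ h2
    rwa [map_sub, (T g).t_one] at h3
  obtain ⟨f₀, hf₀⟩ := hred (p ≫ i)
  have hneg := neg_of_inv T hinv (p ≫ i) hg f₀ hf₀ hred
  obtain ⟨w, hw, hw1, hw2, hw3⟩ := descent_idem hF (p ≫ i) he h1 h2 f₀ hneg
  obtain ⟨P', Q', i', p', j', q', hip', hpi', hjq', hqj', hiso⟩ := split_two w hw
  have hP' : Fd true (𝟙 P') := by
    have h3 : 𝟙 P' = i' ≫ w ≫ p' := by
      rw [← hpi', Category.assoc, hip', Category.comp_id, hip']
    rw [h3]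
    exact Fd_conj true i' w p' hw1
  have hQ' : Fd false (𝟙 Q') := by
    have h3 : 𝟙 Q' = j' ≫ (𝟙 M - w) ≫ q' := by
      rw [← hqj', Category.assoc, hjq', Category.comp_id, hjq']
    rw [h3]
    exact Fd_conj false j' (𝟙 M - w) q' hw2
  refine ⟨P', Q', (Fd_even K P').1 hP', (Fd_odd K Q').1 hQ', hiso, ?_, ?_⟩
  · have hFP : Fd true (𝟙 (F.obj P')) := by
      rw [← F.map_id]
      exact Fd_F F true _ hP'
    apply iso_of_neg K true (F.map i') (F.map p') i p (by rw [← F.map_comp, hip', F.map_id]) hip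
      hFP hP
    rw [← F.map_comp, hpi']
    exact hw3
  · have hFQ : Fd false (𝟙 (F.obj Q')) := by
      rw [← F.map_id]
      exact Fd_F F false _ hQ'
    apply iso_of_neg K false (F.map j') (F.map q') j q (by rw [← F.map_comp, hjq', F.map_id]) hjq
      hFQ hQ
    rw [← F.map_comp, hqj', ← hqj, F.map_sub, F.map_id]
    have h3 : 𝟙 (F.obj M) - F.map w - (𝟙 (F.obj M) - p ≫ i) = - (F.map w - p ≫ i) := by abel
    rw [h3]
    intro g
    rw [Preadditive.neg_comp, tr_neg, hw3 g, neg_zero]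

/-- Kimura finite-dimensionality descends -/
theorem descent_kimura (hF : KerSmash F) {Γ : Type w'} [Group Γ] (T : Γ → Tw K F)
    (hinv : ∀ (g : Γ) {X : C} (f : F.obj X ⟶ F.obj X), (T g⁻¹).t ((T g).t f) = f) {M : C}
    (hred : ∀ f : F.obj M ⟶ F.obj M, ∃ f' : M ⟶ M, f - F.map f' ∈ coinv T M) :
    KimuraFD K M ↔ KimuraFD K (F.obj M) := by
  refine ⟨fun h => kimura_map K F h, fun h => ?_⟩
  obtain ⟨P, Q, hP, hQ, ⟨φ⟩⟩ := h
  obtain ⟨P', Q', hP', hQ', hiso, _, _⟩ := descent_obj K hF T hinv hred P Q hP hQ φ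
  exact ⟨P', Q', hP', hQ', hiso⟩

end Pool.Agent.W_MP_868bb7_h79
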