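import Pool.Agent.W_MP_868bb7_h79.Tr

set_option autoImplicit false

/-!
# TrT: the trace of an endomorphism of an object `F X`, computed with the dual of `X`
-/

namespace Pool.Agent.W_MP_868bb7_h79

open CategoryTheory MonoidalCategory Functor.LaxMonoidal Functor.OplaxMonoidal
open Pool.Agent.W_MP_868bb7_ag

universe v v' u u' w

section Mon

variable {C : Type u} [Category.{v} C] [MonoidalCategory C]
  {D : Type u'} [Category.{v'} D] [MonoidalCategory D] (F : C ⥤ D) [F.Monoidal]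

theorem key_assoc_inv (X Y Z : C) :
    F.obj X ◁ δ F Y Z ≫ (α_ (F.obj X) (F.obj Y) (F.obj Z)).inv ≫ μ F X Y ▷ F.obj Z =
      μ F X (Y ⊗ Z) ≫ F.map (α_ X Y Z).inv ≫ δ F (X ⊗ Y) Z := by
  rw [Functor.Monoidal.map_associator_inv']
  simp only [Category.assoc, Functor.Monoidal.whiskerLeft_δ_μ_assoc,
    Functor.Monoidal.whiskerRight_δ_μ, Category.comp_id]

theorem key_assoc (X Y Z : C) :
    δ F X Y ▷ F.obj Z ≫ (α_ (F.obj X) (F.obj Y) (F.obj Z)).hom ≫ F.obj X ◁ μ F Y Z =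
      μ F (X ⊗ Y) Z ≫ F.map (α_ X Y Z).hom ≫ δ F X (Y ⊗ Z) := by
  rw [Functor.Monoidal.map_associator']
  simp only [Category.assoc, Functor.Monoidal.whiskerRight_δ_μ_assoc,
    Functor.Monoidal.whiskerLeft_δ_μ, Category.comp_id]

/-- a strong monoidal functor preserves exact pairings -/
@[reducible] def mapPairing (X Y : C) [ExactPairing X Y] : ExactPairing (F.obj X) (F.obj Y) where
  coevaluation' := ε F ≫ F.map (η_ X Y) ≫ δ F X Y
  evaluation' := μ F Y X ≫ F.map (ε_ X Y) ≫ η F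
  coevaluation_evaluation' := by
    have h := congrArg F.map (ExactPairing.coevaluation_evaluation X Y)
    rw [F.map_comp, F.map_comp, Functor.Monoidal.map_whiskerLeft,
      Functor.Monoidal.map_whiskerRight] at h
    have h2 := congrArg (fun t => F.obj Y ◁ ε F ≫ μ F Y (𝟙_ C) ≫ t ≫ δ F (𝟙_ C) Y ≫
      η F ▷ F.obj Y) h
    simp only [Category.assoc, Functor.Monoidal.μ_δ_assoc] at h2
    have h3 := key_assoc_inv F Y X Y
    calc F.obj Y ◁ (ε F ≫ F.map (η_ X Y) ≫ δ F X Y) ≫ (α_ _ _ _).inv ≫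
          (μ F Y X ≫ F.map (ε_ X Y) ≫ η F) ▷ F.obj Y
        = F.obj Y ◁ ε F ≫ F.obj Y ◁ F.map (η_ X Y) ≫ (F.obj Y ◁ δ F X Y ≫ (α_ _ _ _).inv ≫
          μ F Y X ▷ F.obj Y) ≫ F.map (ε_ X Y) ▷ F.obj Y ≫ η F ▷ F.obj Y := by
            simp only [MonoidalCategory.whiskerLeft_comp, comp_whiskerRight, Category.assoc]
      _ = (ρ_ (F.obj Y)).hom ≫ (λ_ (F.obj Y)).inv := by
            rw [h3]
            simp only [Category.assoc]
            rw [h2]
            simp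
  evaluation_coevaluation' := by
    have h := congrArg F.map (ExactPairing.evaluation_coevaluation X Y)
    rw [F.map_comp, F.map_comp, Functor.Monoidal.map_whiskerLeft,
      Functor.Monoidal.map_whiskerRight] at h
    have h2 := congrArg (fun t => ε F ▷ F.obj X ≫ μ F (𝟙_ C) X ≫ t ≫ δ F X (𝟙_ C) ≫
      F.obj X ◁ η F) h
    simp only [Category.assoc, Functor.Monoidal.μ_δ_assoc] at h2
    have h3 := key_assoc F X Y X
    calc (ε F ≫ F.map (η_ X Y) ≫ δ F X Y) ▷ F.obj X ≫ (α_ _ _ _).hom ≫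
          F.obj X ◁ (μ F Y X ≫ F.map (ε_ X Y) ≫ η F)
        = ε F ▷ F.obj X ≫ F.map (η_ X Y) ▷ F.obj X ≫ (δ F X Y ▷ F.obj X ≫ (α_ _ _ _).hom ≫
          F.obj X ◁ μ F Y X) ≫ F.obj X ◁ F.map (ε_ X Y) ≫ F.obj X ◁ η F := by
            simp only [MonoidalCategory.whiskerLeft_comp, comp_whiskerRight, Category.assoc]
      _ = (λ_ (F.obj X)).hom ≫ (ρ_ (F.obj X)).inv := by
            rw [h3]
            simp only [Category.assoc]
            rw [h2]
            simp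

end Mon

section Tr

variable {C : Type u} [Category.{v} C] [MonoidalCategory C] [SymmetricCategory C]
  [RightRigidCategory C]
  {D : Type u'} [Category.{v'} D] [MonoidalCategory D] [SymmetricCategory D]
  [RightRigidCategory D] (F : C ⥤ D) [F.Braided]

omit [SymmetricCategory C] [RightRigidCategory C] in
/-- the trace can be computed with any dual -/
theorem trU_any {X P : D} (h : ExactPairing X P) (f : X ⟶ X) :
    trU f = η_ X P ≫ f ▷ P ≫ (β_ X P).hom ≫ ε_ X P := by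
  let φ : P ⟶ Xᘁ := @rightAdjointMate D _ _ X X _ ⟨P⟩ (𝟙 X)
  have h1 : η_ X P ≫ X ◁ φ = η_ X Xᘁ := by
    have h := @coevaluation_comp_rightAdjointMate D _ _ X X _ ⟨P⟩ (𝟙 X)
    rw [id_whiskerRight, Category.comp_id] at h
    exact h
  have h2 : φ ▷ X ≫ ε_ X Xᘁ = ε_ X P := by
    have h := @rightAdjointMate_comp_evaluation D _ _ X X _ ⟨P⟩ (𝟙 X)
    rw [whiskerLeft_id, Category.id_comp] at h
    exact h
  unfold trU cap
  rw [← h1, ← h2, Category.assoc, ← BraidedCategory.braiding_naturality_right_assoc,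
    whisker_exchange_assoc]

theorem trU_F {X : C} (f : F.obj X ⟶ F.obj X) :
    trU f = ε F ≫ F.map (η_ X Xᘁ) ≫ (δ F X Xᘁ ≫ (f ⊗ₘ F.map (𝟙 Xᘁ)) ≫ μ F X Xᘁ) ≫
      F.map (cap X) ≫ η F := by
  rw [trU_any (mapPairing F X Xᘁ) f]
  have h1 : @ExactPairing.coevaluation D _ _ (F.obj X) (F.obj Xᘁ) (mapPairing F X Xᘁ) =
    ε F ≫ F.map (η_ X Xᘁ) ≫ δ F X Xᘁ := rfl
  have h2 : @ExactPairing.evaluation D _ _ (F.obj X) (F.obj Xᘁ) (mapPairing F X Xᘁ) =
    μ F Xᘁ X ≫ F.map (ε_ X Xᘁ) ≫ η F := rfl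
  rw [h1, h2]
  unfold cap
  rw [F.map_comp, F.map_id, tensorHom_id]
  simp

end Tr

end Pool.Agent.W_MP_868bb7_h79
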