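import Pool.Agent.W_MP_868bb7_h79.TrT
import Pool.Agent.W_MP_868bb7_ag.ObjForm
import Pool.Agent.W_MP_868bb7_ag.Dat

set_option autoImplicit false

/-!
# Tw: symmetries of the morphisms between images of a tensor functor
-/

namespace Pool.Agent.W_MP_868bb7_h79

open CategoryTheory MonoidalCategory Limits Functor.LaxMonoidal Functor.OplaxMonoidal
open Pool.Agent.W_MP_868bb7_ag

universe v v' u u' w

variable (K : Type w) [Field K]
  {C : Type u} [Category.{v} C] [MonoidalCategory C] [Preadditive C] [Linear K C]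
  [SymmetricCategory C] [RightRigidCategory C]
  {D : Type u'} [Category.{v'} D] [MonoidalCategory D] [Preadditive D] [Linear K D]
  [MonoidalPreadditive D] [MonoidalLinear K D]
  [SymmetricCategory D] [RightRigidCategory D]
  (F : C ⥤ D) [F.Braided] [F.Additive]

/-- a linear operator on all `Hom (F X, F Y)`, compatible with composition and tensor product,
which fixes the morphisms `F f` -/
structure Tw where
  t : ∀ {X Y : C}, (F.obj X ⟶ F.obj Y) →ₗ[K] (F.obj X ⟶ F.obj Y)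
  comp : ∀ {X Y Z : C} (f : F.obj X ⟶ F.obj Y) (g : F.obj Y ⟶ F.obj Z), t (f ≫ g) = t f ≫ t g
  fix : ∀ {X Y : C} (f : X ⟶ Y), t (F.map f) = F.map f
  tens : ∀ {X Y X' Y' : C} (f : F.obj X ⟶ F.obj Y) (g : F.obj X' ⟶ F.obj Y'),
    t (δ F X X' ≫ (f ⊗ₘ g) ≫ μ F Y Y') = δ F X X' ≫ (t f ⊗ₘ t g) ≫ μ F Y Y'

variable {K} {F}

namespace Tw

variable (T : Tw K F)

theorem tP_t {X Y : C} (f : F.obj X ⟶ F.obj Y) (n : ℕ) : T.t (tP F f n) = tP F (T.t f) n := by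
  induction n with
  | zero =>
    rw [tP_zero, tP_zero]
    exact T.fix _
  | succ n ih =>
    rw [tP_succ, tP_succ]
    refine (T.tens f (tP F f n)).trans ?_
    rw [ih]

theorem Fd_t (b : Bool) {X : C} (f : F.obj X ⟶ F.obj X) (h : Fd b f) : Fd b (T.t f) := by
  obtain ⟨n, hn, h⟩ := h
  refine ⟨n, hn, ?_⟩
  rw [← tP_E] at h ⊢
  have h1 := congrArg T.t h
  rw [T.comp, T.fix, tP_t, map_zero] at h1
  exact h1

theorem t_one (X : C) : T.t (𝟙 (F.obj X)) = 𝟙 (F.obj X) := by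
  have h := T.fix (𝟙 X)
  rwa [F.map_id] at h

theorem tr_t [UnitK K D] {X : C} (f : F.obj X ⟶ F.obj X) : tr K (T.t f) = tr K f := by
  apply tr_unique
  have h1 := trU_F F f
  have h2 := tr_spec K f
  have h3 : F.map (η_ X Xᘁ) ≫ (δ F X Xᘁ ≫ (f ⊗ₘ F.map (𝟙 Xᘁ)) ≫ μ F X Xᘁ) ≫ F.map (cap X) =
      tr K f • F.map (𝟙 (𝟙_ C)) := by
    rw [← cancel_epi (ε F), ← cancel_mono (η F)]
    have h4 : (ε F ≫ F.map (η_ X Xᘁ) ≫ (δ F X Xᘁ ≫ (f ⊗ₘ F.map (𝟙 Xᘁ)) ≫ μ F X Xᘁ) ≫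
      F.map (cap X)) ≫ η F = trU f := by
      rw [h1]
      simp only [Category.assoc]
    rw [h4, h2, Linear.comp_smul, Linear.smul_comp, F.map_id, Category.comp_id,
      Functor.Monoidal.ε_η]
  have h5 := congrArg T.t h3
  rw [T.comp, T.comp, T.tens, T.fix, T.fix, T.fix, map_smul, T.fix] at h5
  rw [trU_F F (T.t f)]
  have h6 : ε F ≫ F.map (η_ X Xᘁ) ≫ (δ F X Xᘁ ≫ (T.t f ⊗ₘ F.map (𝟙 Xᘁ)) ≫ μ F X Xᘁ) ≫
      F.map (cap X) ≫ η F = ε F ≫ (F.map (η_ X Xᘁ) ≫ (δ F X Xᘁ ≫ (T.t f ⊗ₘ F.map (𝟙 Xᘁ)) ≫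
      μ F X Xᘁ) ≫ F.map (cap X)) ≫ η F := by
    simp only [Category.assoc]
  rw [h6, h5, Linear.smul_comp, Linear.comp_smul, F.map_id, Category.id_comp,
    Functor.Monoidal.ε_η]

end Tw

end Pool.Agent.W_MP_868bb7_h79
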